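import Mathlib
import Pool.Agent.T2H12.KI.Fin2

/-!
# Approximately determined exponents (package DT3)
-/

set_option autoImplicit false

namespace Pool.Agent.T2H12.KJ

open Finset
open scoped Classical
open Pool.Agent.Y359.PE Pool.Agent.T2H12.KF Pool.Agent.T2H12.KD Pool.Agent.T2H12.KG
open Pool.Agent.T2H12.KH Pool.Agent.T2H12.KI

/-- the exponents at `P` determine the exponents at `Q` up to few possibilities, in terms of
entropy -/
def DtE (δ : ℝ) (P Q : Finset ℕ) (A : Finset ℤ) : Prop :=
  P ⊆ Q ∧ ∀ U ⊆ A, ce U (gp P) (gp Q) ≤ δ * Real.log A.card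

/-- the number of the possible exponents at `Q` of the elements of `A` with the same exponents at
`P` as `x` -/
noncomputable def nq (P Q : Finset ℕ) (A : Finset ℤ) (x : ℤ) : ℕ :=
  ((A.filter fun y => ∀ p ∈ P, y.natAbs.factorization p = x.natAbs.factorization p).image
    fun y => fun q : Q => y.natAbs.factorization q).card

theorem dtE_of_nq {δ : ℝ} {P Q : Finset ℕ} {A : Finset ℤ} (hQ : ∀ q ∈ Q, q.Prime) (hPQ : P ⊆ Q)
    (hA : A.Nonempty) (h : ∀ x ∈ A, (nq P Q A x : ℝ) ≤ (A.card : ℝ) ^ δ) : DtE δ P Q A := by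
  have hP : ∀ p ∈ P, p.Prime := fun p hp => hQ p (hPQ hp)
  have hA0 : (0 : ℝ) < A.card := by exact_mod_cast card_pos.2 hA
  have hnq : ∀ x ∈ A, 1 ≤ nq P Q A x := by
    intro x hx
    unfold nq
    refine card_pos.2 ⟨_, mem_image_of_mem _ (mem_filter.2 ⟨hx, fun p _ => rfl⟩)⟩
  have hlog : ∀ x ∈ A, Real.log (nq P Q A x) ≤ δ * Real.log A.card := by
    intro x hx
    rw [← Real.log_rpow hA0]
    exact Real.log_le_log (by exact_mod_cast hnq x hx) (h x hx)
  have h0 : 0 ≤ δ * Real.log A.card := by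
    obtain ⟨x, hx⟩ := hA
    refine le_trans ?_ (hlog x hx)
    exact Real.log_nonneg (by exact_mod_cast hnq x hx)
  refine ⟨hPQ, fun U hU => ?_⟩
  have hce : ce U (gp P) (gp Q) =
      (∑ x ∈ U, Pool.Agent.Y359.PE.h (cl U (gp P) x) (gp Q)) / U.card :=
    chain U (gp P) (gp Q)
  rw [hce]
  have hx : ∀ x ∈ U, Pool.Agent.Y359.PE.h (cl U (gp P) x) (gp Q) ≤ δ * Real.log A.card := by
    intro x hx
    have hne : (cl U (gp P) x).Nonempty := ⟨x, mem_cl.2 ⟨hx, rfl⟩⟩
    refine (h_le_log hne (gp Q)).trans (le_trans ?_ (hlog x (hU hx)))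
    have hcard : ((cl U (gp P) x).image (gp Q)).card ≤ nq P Q A x := by
      let φ : (Q → ℕ) → ℤ := fun e => ((∏ q : Q, (q : ℕ) ^ e q : ℕ) : ℤ)
      have hφ : ∀ y : ℤ, gp Q y = φ fun q : Q => y.natAbs.factorization q := by
        intro y
        unfold gp
        simp only [φ]
        congr 1
        rw [← prod_coe_sort Q]
        rfl
      have hsub : (cl U (gp P) x).image (gp Q) ⊆ ((A.filter fun y => ∀ p ∈ P,
          y.natAbs.factorization p = x.natAbs.factorization p).image
          fun y => fun q : Q => y.natAbs.factorization q).image φ := by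
        intro z hz
        rw [mem_image] at hz
        obtain ⟨y, hy, rfl⟩ := hz
        rw [mem_cl, gp_eq_iff hP] at hy
        rw [hφ y]
        exact mem_image_of_mem _ (mem_image_of_mem _ (mem_filter.2 ⟨hU hy.1, hy.2⟩))
      exact (card_le_card hsub).trans card_image_le
    have hpos : 0 < ((cl U (gp P) x).image (gp Q)).card := card_pos.2 (hne.image _)
    have h3 : Real.log (((cl U (gp P) x).image (gp Q)).card : ℝ) ≤ Real.log (nq P Q A x : ℝ) :=
      Real.log_le_log (by exact_mod_cast hpos) (by exact_mod_cast hcard)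
    refine (le_of_eq ?_).trans h3
    congr 2
    exact congrArg Finset.card (by
      congr 1
      exact Subsingleton.elim _ _)
  rcases U.eq_empty_or_nonempty with hU0 | hU0
  · rw [hU0]
    simpa using h0
  · have hU1 : (0 : ℝ) < U.card := by exact_mod_cast card_pos.2 hU0
    rw [div_le_iff₀ hU1]
    have := sum_le_card_nsmul U _ _ hx
    rw [nsmul_eq_mul] at this
    linarith

end Pool.Agent.T2H12.KJ
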