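import Mathlib
import Pool.Agent.T2H12.KJ.Dt3

/-!
# Almost dependent primes: the exceptional pairs are rare
-/

set_option autoImplicit false

namespace Pool.Agent.T2H12.KJ

open Finset
open scoped Classical
open Pool.Agent.Y359.PE Pool.Agent.T2H12.KF Pool.Agent.T2H12.KD Pool.Agent.T2H12.KG
open Pool.Agent.T2H12.KH Pool.Agent.T2H12.KI

/-- **The flats for a fixed second summand.** -/
theorem flat_app3 {δ lam : ℝ} (π : Par) (D : Finset ℤ) (hF : FlatP δ lam π.al)
    (hal : π.al ≤ 1) (hu : 0 ≤ π.u) (hlam : Real.exp π.u * lam = 1)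
    {ρ : ℝ} (hρ : 0 < ρ) (hρ2 : ρ ≤ 1 / 2) (Q Ql : Finset ℕ) (hQ : ∀ q ∈ Q, q.Prime)
    (hQl : Ql ⊆ Q) (P : ℕ → ℕ) (J : ℕ) (hP : ∀ j < J, P j ∈ Ql) (U V : Finset ℤ) (h0 : (0 : ℤ) ∉ U)
    (st : ℕ → ℤ × ℤ → St) (hst0 : ∀ s, st 0 s = (cl U (gp Q) s.1, V, 0))
    (hR : ∀ j ≤ J, Rect U V (st j))
    (hO : ∀ j < J, ∀ s ∈ U ×ˢ V, OneP π D (P j) (st j s).1 (st j s).2.1 (st (j + 1)))
    (b : ℤ) (hb : b ∈ V) :
    ((U.filter fun x => Real.exp π.t < ((st J (x, b)).2.1.card : ℝ)).card : ℝ) *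
      ce (U.filter fun x => Real.exp π.t < ((st J (x, b)).2.1.card : ℝ)) (gq Ql)
        (fun x => fun j : Fin J => fa x (P j)) ≤
      δ * (U.card * Real.log U.card + J * U.card) + 2 * ρ * J * U.card +
          Real.log (1 / ρ) * ∑ x ∈ U, ∑ j ∈ range J, ((st (j + 1) (x, b)).2.2 : ℝ) := by
  have hne : ∀ x ∈ U, x ≠ 0 := fun x hx h => h0 (h ▸ hx)
  have hX : ∀ x ∈ U, (x, b) ∈ U ×ˢ V := fun x hx => mem_product.2 ⟨hx, hb⟩
  -- the rectangles
  have hself : ∀ j ≤ J, ∀ x ∈ U, x ∈ (st j (x, b)).1 ∧ b ∈ (st j (x, b)).2.1 := by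
    intro j hj x hx
    exact mem_product.1 ((hR j hj).mem (x, b) (hX x hx)).1
  have hsubU : ∀ j ≤ J, ∀ x ∈ U, (st j (x, b)).1 ⊆ U := fun j hj x hx =>
    ((hR j hj).mem (x, b) (hX x hx)).2.1
  have hcon : ∀ j ≤ J, ∀ x ∈ U, ∀ y ∈ (st j (x, b)).1, st j (y, b) = st j (x, b) := by
    intro j hj x hx y hy
    exact (hR j hj).const (x, b) (hX x hx) (y, b) (mem_product.2 ⟨hy, (hself j hj x hx).2⟩)
  have hstep : ∀ j < J, ∀ x ∈ U, (st (j + 1) (x, b)).1 ⊆ (st j (x, b)).1 ∧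
      (st (j + 1) (x, b)).2.1 ⊆ (st j (x, b)).2.1 := by
    intro j hj x hx
    exact ((hO j hj (x, b) (hX x hx)).mem (x, b)
      (mem_product.2 (hself j hj.le x hx))).2
  have hnest : ∀ i j, i ≤ j → j ≤ J → ∀ x ∈ U, (st j (x, b)).1 ⊆ (st i (x, b)).1 := by
    intro i j hij
    induction j, hij using Nat.le_induction with
    | base => intro _ x _; exact Subset.refl _
    | succ j hij ih =>
      intro hj x hx
      exact (hstep j (by omega) x hx).1.trans (ih (by omega) x hx)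
  have hall : ∀ i j, i ≤ j → j ≤ J → ∀ x ∈ U, ∀ y ∈ (st j (x, b)).1,
      st i (y, b) = st i (x, b) := fun i j hij hj x hx y hy =>
    hcon i (hij.trans hj) x hx y (hnest i j hij hj x hx hy)
  have hgp : ∀ j ≤ J, ∀ x ∈ U, ∀ y ∈ (st j (x, b)).1, gp Q y = gp Q x := by
    intro j hj x hx y hy
    have h1 := hnest 0 j (Nat.zero_le _) hj x hx hy
    rw [hst0] at h1
    exact (mem_cl.1 h1).2
  have hfa : ∀ j ≤ J, ∀ x ∈ U, ∀ y ∈ (st j (x, b)).1, ∀ i < J, fa y (P i) = fa x (P i) :=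
    fun j hj x hx y hy i hi => (gp_eq_iff hQ).1 (hgp j hj x hx y hy) _ (hQl (hP i hi))
  have hQlp : ∀ q ∈ Ql, q.Prime := fun q hq => hQ q (hQl hq)
  have hgl : ∀ x y : ℤ, gp Q x = gp Q y → gp Ql x = gp Ql y := fun x y hxy =>
    (gp_eq_iff hQlp).2 fun p hp => (gp_eq_iff hQ).1 hxy p (hQl hp)
  set O : ℕ → Finset ℤ := fun j => U.filter fun x => Real.exp π.t < ((st j (x, b)).2.1.card : ℝ)
    with hOd
  have hmemO : ∀ j x, x ∈ O j ↔ x ∈ U ∧ Real.exp π.t < ((st j (x, b)).2.1.card : ℝ) :=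
    fun j x => mem_filter
  refine hF ρ hρ hρ2 U J O (fun j x => (st (j + 1) (x, b)).1)
    (fun j x => (st (j + 1) (x, b)).2.2) (fun j x => fa x (P j))
    (fun j x => π.lv (P j) (st (j + 1) (x, b)).2.1) (gq Ql) (fun j e x => rp (P j) e (gq Ql x))
    (filter_subset _ _) ?_ ?_ ?_ ?_ ?_ ?_ ?_ ?_ ?_
  · intro j hj x hx
    rw [hmemO] at hx ⊢
    refine ⟨hx.1, lt_of_lt_of_le hx.2 ?_⟩
    exact_mod_cast card_le_card (hstep j hj x hx.1).2
  · intro j e x y hxy
    simp only [hxy]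
  · intro j e e' x y hee hxy
    exact rp_mono hee hxy
  · intro j hj x hx
    have hxU := ((hmemO _ _).1 hx).1
    refine ⟨(hself (j + 1) hj x hxU).1, ?_⟩
    intro y hy
    have hy' : y ∈ (st (j + 1) (x, b)).1 := hy
    rw [hmemO, hcon (j + 1) hj x hxU y hy']
    exact ⟨hsubU (j + 1) hj x hxU hy', ((hmemO _ _).1 hx).2⟩
  · intro j hj x hx y hy
    have hxU := ((hmemO _ _).1 hx).1
    have hy' : y ∈ (st (j + 1) (x, b)).1 := hy
    simp only [hcon (j + 1) hj x hxU y hy']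
  · intro j hj x hx y hy i hi
    have hxU := ((hmemO _ _).1 hx).1
    have hy' : y ∈ (st (j + 1) (x, b)).1 := hy
    have h1 := hall (i + 1) (j + 1) (by omega) hj x hxU y hy'
    have h2 := hfa (j + 1) hj x hxU y hy' i (by omega)
    refine ⟨?_, h2, ?_, ?_⟩
    · simp only [h1]
    · simp only [h1]
    · have hyi : y ∈ (st (i + 1) (x, b)).1 :=
        hnest (i + 1) (j + 1) (by omega) hj x hxU hy'
      have h3 := (hO i (by omega) (x, b) (hX x hxU)).res (x, b)
        (mem_product.2 (hself i (by omega) x hxU)) y hyi x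
        (hself (i + 1) (by omega) x hxU).1
      have h4 := (gp_res hQlp (hP i (by omega)) (hne y (hsubU (j + 1) hj x hxU hy'))
        (hne x hxU) (hgl _ _ (hgp (j + 1) hj x hxU y hy')) _).1 h3
      rw [h2] at h4
      exact h4
  · intro j hj x hx y hy hn
    have hxU := ((hmemO _ _).1 hx).1
    have hyU := ((hmemO _ _).1 hy).1
    have h1 : ∀ i, i ≤ j + 1 → (st i (x, b)).2.1 = (st i (y, b)).2.1 := by
      intro i
      induction i with
      | zero =>
        intro _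
        rw [hst0, hst0]
      | succ i ih =>
        intro hi
        have h2 := (hO i (by omega) (x, b) (hX x hxU)).chain (x, b)
          (mem_product.2 (hself i (by omega) x hxU))
        have h3 := (hO i (by omega) (y, b) (hX y hyU)).chain (y, b)
          (mem_product.2 (hself i (by omega) y hyU))
        have h4 : (st (i + 1) (x, b)).2.2 = (st (i + 1) (y, b)).2.2 := hn i (by omega)
        rw [h2, h3, h4, ih (by omega)]
    simp only [h1 (j + 1) le_rfl]
  · intro j hj x hx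
    have hx' := (hmemO _ _).1 hx
    have hxU := hx'.1
    by_contra hcon2
    rw [not_le] at hcon2
    have hstop := (hO j hj (x, b) (hX x hxU)).stop (x, b)
      (mem_product.2 (hself j hj.le x hxU))
    rcases hstop with h1 | h1
    · linarith [hx'.2]
    · set S := (st (j + 1) (x, b)).1 with hS
      set ℓ := π.lv (P j) (st (j + 1) (x, b)).2.1 with hℓ
      have hxS : x ∈ S := (hself (j + 1) hj x hxU).1
      have h2 : ∀ y ∈ S, Hvy π.u S (P j) (ℓ + 1) y := by
        intro y hy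
        unfold Hvy
        have h3 : fc S (rp (P j) (ℓ + 1)) y = S.card := by
          unfold fc
          congr 1
          ext w
          rw [mem_cl]
          refine ⟨fun h => h.1, fun hw => ⟨hw, ?_⟩⟩
          rw [rp_eq_iff]
          have d1 : ∀ w ∈ S, ((P j : ℕ) : ℤ) ^ (ℓ + 1) ∣ w := by
            intro w hw
            have hwU := hsubU (j + 1) hj x hxU hw
            refine (pow_dvd_iff_fa (hQlp _ (hP j hj)) (hne w hwU) (ℓ + 1)).2 ?_
            rw [hfa (j + 1) hj x hxU w hw j hj]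
            exact hcon2
          exact dvd_sub (d1 w hw) (d1 y hy)
        rw [h3]
        have h4 : 1 ≤ Real.exp π.u := Real.one_le_exp hu
        have h5 : (0 : ℝ) ≤ S.card := Nat.cast_nonneg _
        nlinarith
      rw [filter_true_of_mem h2] at h1
      have h3 : (0 : ℝ) < S.card := by exact_mod_cast card_pos.2 ⟨x, hxS⟩
      nlinarith
  · intro j hj x hx
    have hx' := (hmemO _ _).1 hx
    have hxU := hx'.1
    have hstop := (hO j hj (x, b) (hX x hxU)).stop (x, b)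
      (mem_product.2 (hself j hj.le x hxU))
    rcases hstop with h1 | h1
    · linarith [hx'.2]
    · refine le_trans ?_ h1.le
      have hsub : ((st (j + 1) (x, b)).1.filter fun y =>
          lam * (st (j + 1) (x, b)).1.card ≤ fc (st (j + 1) (x, b)).1
            (fun x_1 => rp (P j) (π.lv (P j) (st (j + 1) (x, b)).2.1 + 1 - fa x (P j))
              (gq Ql x_1)) y) ⊆
          (st (j + 1) (x, b)).1.filter fun y => Hvy π.u (st (j + 1) (x, b)).1 (P j)
            (π.lv (P j) (st (j + 1) (x, b)).2.1 + 1) y := by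
        intro y hy
        obtain ⟨hy1, hy2⟩ := mem_filter.1 hy
        refine mem_filter.2 ⟨hy1, ?_⟩
        unfold Hvy
        have h3 : fc (st (j + 1) (x, b)).1 (fun x_1 => rp (P j)
            (π.lv (P j) (st (j + 1) (x, b)).2.1 + 1 - fa x (P j)) (gq Ql x_1)) y =
            fc (st (j + 1) (x, b)).1 (rp (P j) (π.lv (P j) (st (j + 1) (x, b)).2.1 + 1)) y := by
          unfold fc
          congr 1
          refine cl_eq_of_iff (fun w hw y' hy' => ?_) hy1
          have hwU := hsubU (j + 1) hj x hxU hw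
          have hyU := hsubU (j + 1) hj x hxU hy'
          have e1 : gp Q w = gp Q y' := by
            rw [hgp (j + 1) hj x hxU w hw, hgp (j + 1) hj x hxU y' hy']
          rw [gp_res hQlp (hP j hj) (hne w hwU) (hne y' hyU) (hgl _ _ e1),
            hfa (j + 1) hj x hxU w hw j hj]
        rw [h3] at hy2
        have h4 := mul_le_mul_of_nonneg_left hy2 (Real.exp_pos π.u).le
        rw [← mul_assoc, hlam, one_mul] at h4
        exact h4
      exact_mod_cast card_le_card hsub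

/-- the exponents of the large primes from below -/
lemma id_low {Q : Finset ℕ} (hQ : ∀ q ∈ Q, q.Prime) (K : ℕ) (R : Finset ℕ) (hR : R ⊆ Q)
    (O : Finset ℤ) (h0 : (0 : ℤ) ∉ O) (J : ℕ) (P : ℕ → ℕ)
    (hP : ∀ q ∈ R, K ≤ q → ∃ j < J, P j = q) :
    Real.log O.card - h O (gq (Q.filter fun q => K ≤ q)) ≤
      ce O (gq (Q.filter fun q => K ≤ q)) (fun x => fun j : Fin J => fa x (P j)) +
        ce O (gp R) (gp Q) := by
  set Ql := Q.filter fun q => K ≤ q with hQl
  have hQlp : ∀ q ∈ Ql, q.Prime := fun q hq => hQ q (mem_filter.1 hq).1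
  have hRp : ∀ q ∈ R, q.Prime := fun q hq => hQ q (hR hq)
  have hne : ∀ x ∈ O, x ≠ 0 := fun x hx h => h0 (h ▸ hx)
  set v : ℤ → Fin J → ℕ := fun x => fun j : Fin J => fa x (P j) with hv
  have h1 : ce O (gq Ql) (fun x => (v x, gp Q x)) = Real.log O.card - h O (gq Ql) := by
    unfold ce
    rw [h_inj O _ (by
      intro x hx y hy hxy
      obtain ⟨h3, h4⟩ := Prod.mk.inj hxy
      obtain ⟨_, h5⟩ := Prod.mk.inj h4
      have h6 : gp Ql x = gp Ql y := (gp_eq_iff hQlp).2 fun p hp =>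
        (gp_eq_iff hQ).1 h5 p (mem_filter.1 hp).1
      rw [eq_gp_mul_gq hQlp (hne x hx), eq_gp_mul_gq hQlp (hne y hy), h6, h3])]
  rw [← h1, ce_chain]
  refine add_le_add le_rfl ?_
  refine ce_anti _ _ _ _ fun x hx y hy hxy => ?_
  obtain ⟨h3, h4⟩ := Prod.mk.inj hxy
  rw [gp_eq_iff hRp]
  intro p hp
  by_cases hpK : K ≤ p
  · obtain ⟨j, hj, rfl⟩ := hP p hp hpK
    exact congrFun h4 ⟨j, hj⟩
  · have h5 := fa_gq hQlp (hne x hx) p
    have h6 := fa_gq hQlp (hne y hy) p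
    have h7 : p ∉ Ql := fun h => hpK (mem_filter.1 h).2
    rw [if_neg h7] at h5 h6
    rw [← h5, ← h6, h3]

/-- the lower bound for the entropy of the exponents -/
lemma fib_low3 {Q : Finset ℕ} (hQ : ∀ q ∈ Q, q.Prime) (K : ℕ) (R : Finset ℕ) (hR : R ⊆ Q)
    (A O : Finset ℤ) (h0 : (0 : ℤ) ∉ A)
    (hOA : O ⊆ A) (hO : O.Nonempty) {τ : ℝ}
    (hf : ∀ x ∈ O, Real.exp τ ≤ fc A (gq (Q.filter fun q => K ≤ q)) x) (J : ℕ) (P : ℕ → ℕ)
    (hP : ∀ q ∈ R, K ≤ q → ∃ j < J, P j = q) :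
    Real.log O.card - (Real.log A.card - τ) - ce O (gp R) (gp Q) ≤
      ce O (gq (Q.filter fun q => K ≤ q)) (fun x => fun j : Fin J => fa x (P j)) := by
  set Ql := Q.filter fun q => K ≤ q with hQl
  have h1 := id_low hQ K R hR O (fun h => h0 (hOA h)) J P hP
  rw [← hQl] at h1
  have h2 := h_le_log hO (gq Ql)
  have h3 := image_card_le A O (gq Ql) hf
  have hI : (0 : ℝ) < (O.image (gq Ql)).card := by exact_mod_cast card_pos.2 (hO.image _)
  have hinst : ∀ i₁ i₂ : DecidableEq ℤ, @Finset.image ℤ ℤ i₁ (gq Ql) O =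
      @Finset.image ℤ ℤ i₂ (gq Ql) O := fun i₁ i₂ => by rw [Subsingleton.elim i₁ i₂]
  rw [hinst _ Int.instDecidableEq] at h2 h3
  have h4 := Real.log_le_log (mul_pos hI (Real.exp_pos _)) h3
  rw [Real.log_mul hI.ne' (Real.exp_pos _).ne', Real.log_exp] at h4
  linarith

/-- the first step: the exponents of all the primes with a random multiplier -/
lemma step03 {η c : ℝ} (hη : 0 < η) (hη1 : η ≤ 1) (hc : 0 < c) : ∃ K₀ : ℝ, 0 < K₀ ∧
    ∀ K : ℕ, K₀ ≤ K → ∃ B : ℝ, 0 ≤ B ∧ ∀ (P Q : Finset ℕ) (U V : Finset ℤ),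
      (∀ q ∈ Q, q.Prime) → P ⊆ Q → (0 : ℤ) ∉ U → U.Nonempty → V.Nonempty →
      ∑ m ∈ qK K, ce (U ×ˢ V) (fun s => m * s.1 + s.2) (fun s => gp Q s.1) ≤
        K * (5 * η * (Real.log U.card + Real.log V.card) + c * P.card + B +
          ce U (gp P) (gp Q)) := by
  obtain ⟨C, hC, hB⟩ := exists_bitG hη hη1
  obtain ⟨K₀, hK₀, hlarge⟩ := levB_large hη hη1 hC hB hc
  refine ⟨max K₀ (1 / η), lt_max_of_lt_left hK₀, ?_⟩
  intro K hK
  have hK1 : K₀ ≤ K := (le_max_left _ _).trans hK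
  have hK2 : 1 / η ≤ K := (le_max_right _ _).trans hK
  have hKp : (0 : ℝ) < K := hK₀.trans_le hK1
  set L₀ : ℝ := 2 * Real.log 2 + 1 + Real.log (C / η) with hL₀
  have hl2 : 0 < Real.log 2 := Real.log_pos (by norm_num)
  have hL₀0 : 0 ≤ L₀ := by
    have : 0 ≤ Real.log (C / η) := Real.log_nonneg (by
      rw [le_div_iff₀ hη]
      linarith)
    positivity
  refine ⟨K * L₀, by positivity, ?_⟩
  intro P Q U V hQ hPQ h0 hU hV
  have hPp : ∀ p ∈ P, p.Prime := fun p hp => hQ p (hPQ hp)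
  have h1 := spine_list_m hη (qK K) (fun p => if p < K then L₀ else c) P.toList U V (by
    intro p hp
    have hpp := hPp p (Finset.mem_toList.1 hp)
    refine ⟨hpp, ?_, ?_⟩
    · split_ifs
      · exact hL₀0
      · exact hc.le
    · split_ifs with h
      · exact levB_small hη hη1 hC hB hpp h
      · exact hlarge K p hK1 hpp (not_lt.1 h)) h0 hU hV
  rw [card_qK] at h1
  have h2 := cs_le (K := K) hL₀0 hc.le P.toList P.nodup_toList
  rw [Finset.length_toList] at h2
  have h3 : ∀ m ∈ qK K, ce (U ×ˢ V) (fun s => m * s.1 + s.2) (fun s => gp Q s.1) ≤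
      hzm m U V (fL P.toList) + ce U (gp P) (gp Q) := by
    intro m _
    have e1 : ce (U ×ˢ V) (fun s => m * s.1 + s.2) (fun s => gp Q s.1) ≤
        ce (U ×ˢ V) (fun s => m * s.1 + s.2) (fun s => (fL P.toList s.1, gp Q s.1)) :=
      ce_mono _ _ _ _ fun x _ y _ _ hxy => (Prod.mk.inj hxy).2
    rw [ce_chain] at e1
    refine e1.trans (add_le_add le_rfl ?_)
    have e2 : ce (U ×ˢ V) (fun s => (m * s.1 + s.2, fL P.toList s.1)) (fun s => gp Q s.1) ≤
        ce (U ×ˢ V) (fun s => gp P s.1) (fun s => gp Q s.1) := by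
      refine ce_anti _ _ _ _ fun x _ y _ hxy => ?_
      have hxy' : fL P.toList x.1 = fL P.toList y.1 := (Prod.mk.inj hxy).2
      rw [fL_eq_iff] at hxy'
      exact (gp_eq_iff hPp).2 fun p hp => hxy' p (Finset.mem_toList.2 hp)
    refine e2.trans (le_of_eq ?_)
    unfold ce
    rw [h_fst U V hU hV (gp P)]
    have e3 := h_fst U V hU hV (fun x => (gp P x, gp Q x))
    rw [e3]
  have h4 := sum_le_sum h3
  rw [sum_add_distrib, sum_const, card_qK, nsmul_eq_mul] at h4
  refine h4.trans ?_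
  have h5 := h_le_log_card U (fL P.toList)
  have h6 := log_card_nonneg V
  have h7 := h_nonneg U (fL P.toList)
  have h8 : 1 ≤ K * η := by
    rw [div_le_iff₀ hη] at hK2
    exact hK2
  have h9 : h U (fL P.toList) ≤ K * (η * Real.log U.card) := by
    have h9 : (1 : ℝ) * h U (fL P.toList) ≤ K * η * Real.log U.card :=
      mul_le_mul h8 h5 h7 (by positivity)
    linarith
  have h10 : (K : ℝ) * (4 * η * (h U (fL P.toList) + Real.log V.card)) ≤
      K * (4 * η * (Real.log U.card + Real.log V.card)) :=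
    mul_le_mul_of_nonneg_left (mul_le_mul_of_nonneg_left (by linarith) (by positivity)) hKp.le
  have h11 : 0 ≤ (K : ℝ) * (η * Real.log V.card) := by positivity
  have h12 := mul_le_mul_of_nonneg_left h2 hKp.le
  linarith

/-- **The exceptional pairs are rare.** -/
theorem O_small3 {η κ δ lam a Y E : ℝ} (π : Par) (D : Finset ℤ) (hF : FlatP δ lam π.al)
    (hal : π.al ≤ 1) (hu : 0 ≤ π.u) (hlam : Real.exp π.u * lam = 1)
    {ρ : ℝ} (hρ : 0 < ρ) (hρ2 : ρ ≤ 1 / 2) (Q R : Finset ℕ) (K : ℕ) (hQ : ∀ q ∈ Q, q.Prime)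
    (hRQ : R ⊆ Q) (P : ℕ → ℕ) (J : ℕ) (hP : ∀ j < J, P j ∈ Q.filter fun q => K ≤ q) (A U V : Finset ℤ)
    (hPQ : ∀ q ∈ R, K ≤ q → ∃ j < J, P j = q) (hE : ∀ O ⊆ A, ce O (gp R) (gp Q) ≤ E) (hUA : U ⊆ A) (h0 : (0 : ℤ) ∉ A) (hU : U.Nonempty) (hV : V.Nonempty)
    (st : ℕ → ℤ × ℤ → St) (hst0 : ∀ s, st 0 s = (cl U (gp Q) s.1, V, 0))
    (hR : ∀ j ≤ J, Rect U V (st j))
    (hO : ∀ j < J, ∀ s ∈ U ×ˢ V, OneP π D (P j) (st j s).1 (st j s).2.1 (st (j + 1)))
    (hη : 0 < η) (hκ : 0 < κ) (hδ : 0 ≤ δ) (ha : a = Real.log A.card)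
    (hUc : κ / 2 * A.card ≤ U.card) (hfib : ∀ x ∈ U, Real.exp (κ / 2 * a) ≤ fc A (gq (Q.filter fun q => K ≤ q)) x)
    (hY : 0 < Y)
    (hcount : ∑ j ∈ range J, ∑ s ∈ U ×ˢ V, ((st (j + 1) s).2.2 : ℝ) ≤ (U ×ˢ V).card * Y)
    (hR0 : 0 ≤ κ / 2 * a + Real.log (η * κ / 4) - E)
    (hnum : δ * (a + J) + 2 * ρ * J + Real.log (1 / ρ) * (2 / η * Y) <
      η / 2 * (κ / 2 * a + Real.log (η * κ / 4) - E)) :
    (((U ×ˢ V).filter fun s => Real.exp π.t < ((st J s).2.1.card : ℝ)).card : ℝ) ≤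
      η * (U ×ˢ V).card := by
  by_contra hcon
  rw [not_le] at hcon
  have hUc0 : (0 : ℝ) < U.card := by exact_mod_cast card_pos.2 hU
  have hVc0 : (0 : ℝ) < V.card := by exact_mod_cast card_pos.2 hV
  have hAc0 : (0 : ℝ) < A.card := by exact_mod_cast card_pos.2 (hU.mono hUA)
  have hlρ : 0 ≤ Real.log (1 / ρ) := Real.log_nonneg (by
    rw [le_div_iff₀ hρ]
    linarith)
  set O : ℤ → Finset ℤ := fun b => U.filter fun x => Real.exp π.t < ((st J (x, b)).2.1.card : ℝ)
    with hOd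
  set g : ℤ → ℝ := fun b => ∑ x ∈ U, ∑ j ∈ range J, ((st (j + 1) (x, b)).2.2 : ℝ) with hg
  have hg0 : ∀ b, 0 ≤ g b := fun b => sum_nonneg fun _ _ => sum_nonneg fun _ _ => Nat.cast_nonneg _
  have hXc : ((U ×ˢ V).card : ℝ) = U.card * V.card := by
    rw [card_product]
    push_cast
    rfl
  have e1 : (((U ×ˢ V).filter fun s => Real.exp π.t < ((st J s).2.1.card : ℝ)).card : ℝ) =
      ∑ b ∈ V, ((O b).card : ℝ) := by
    rw [card_filter]
    push_cast
    rw [sum_product_right]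
    refine sum_congr rfl fun b _ => ?_
    rw [hOd]
    simp only [card_filter]
    push_cast
    rfl
  have e2 : ∑ j ∈ range J, ∑ s ∈ U ×ˢ V, ((st (j + 1) s).2.2 : ℝ) = ∑ b ∈ V, g b := by
    rw [sum_comm, sum_product_right]
  rw [e1, hXc] at hcon
  rw [e2, hXc] at hcount
  obtain ⟨b, hb, hlt⟩ : ∃ b ∈ V, η / 2 * (U.card : ℝ) < (O b).card - η / 2 * (g b / Y) := by
    refine exists_lt_of_sum_lt ?_
    rw [sum_const, nsmul_eq_mul, sum_sub_distrib, ← mul_sum, ← sum_div]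
    have h1 : (∑ b ∈ V, g b) / Y ≤ U.card * V.card := by
      rw [div_le_iff₀ hY]
      exact hcount
    have h2 := mul_le_mul_of_nonneg_left h1 (by positivity : 0 ≤ η / 2)
    linarith
  have hf1 : η / 2 * (U.card : ℝ) < (O b).card := by
    have : 0 ≤ η / 2 * (g b / Y) := by
      have := hg0 b
      positivity
    linarith
  have hOc0 : (0 : ℝ) < (O b).card := lt_of_le_of_lt (by positivity) hf1
  have hOn : (O b).Nonempty := card_pos.1 (by exact_mod_cast hOc0)
  have hOU : O b ⊆ U := filter_subset _ _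
  have hg1 : g b ≤ 2 / η * Y * U.card := by
    have h1 : ((O b).card : ℝ) ≤ U.card := by exact_mod_cast card_le_card hOU
    have h2 : η / 2 * (g b / Y) ≤ U.card := by
      have : 0 ≤ η / 2 * (U.card : ℝ) := by positivity
      linarith
    have h3 : g b = 2 / η * Y * (η / 2 * (g b / Y)) := by
      field_simp
    rw [h3]
    exact mul_le_mul_of_nonneg_left h2 (by positivity)
  have hfl := flat_app3 π D hF hal hu hlam hρ hρ2 Q _ hQ (filter_subset (fun q => K ≤ q) Q) P J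
    hP U V (fun h => h0 (hUA h)) st hst0
    hR hO b hb
  change ((O b).card : ℝ) * ce (O b) (gq (Q.filter fun q => K ≤ q)) (fun x => fun j : Fin J => fa x (P j)) ≤
    δ * (U.card * Real.log U.card + J * U.card) + 2 * ρ * J * U.card +
      Real.log (1 / ρ) * g b at hfl
  have hlow := fib_low3 hQ K R hRQ A (O b) h0 (hOU.trans hUA) hOn (τ := κ / 2 * a)
    (fun x hx => hfib x (hOU hx)) J P hPQ
  have hEO := hE (O b) (hOU.trans hUA)
  have hlogO : Real.log (η * κ / 4) + a ≤ Real.log (O b).card := by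
    rw [ha, ← Real.log_mul (by positivity) hAc0.ne']
    refine Real.log_le_log (by positivity) ?_
    have h1 := mul_le_mul_of_nonneg_left hUc (by positivity : 0 ≤ η / 2)
    have h2 : η * κ / 4 * (A.card : ℝ) = η / 2 * (κ / 2 * A.card) := by ring
    rw [h2]
    linarith
  rw [← ha] at hlow
  have hce : κ / 2 * a + Real.log (η * κ / 4) - E ≤
      ce (O b) (gq (Q.filter fun q => K ≤ q)) (fun x => fun j : Fin J => fa x (P j)) := by linarith
  have h1 : η / 2 * U.card * (κ / 2 * a + Real.log (η * κ / 4) - E) ≤ (O b).card *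
      ce (O b) (gq (Q.filter fun q => K ≤ q)) (fun x => fun j : Fin J => fa x (P j)) :=
    mul_le_mul hf1.le hce hR0 hOc0.le
  have hlu : Real.log U.card ≤ a := by
    rw [ha]
    exact Real.log_le_log hUc0 (by exact_mod_cast card_le_card hUA)
  have h2 : δ * (U.card * Real.log U.card + J * U.card) ≤ δ * (a + J) * U.card := by
    have h3 : (U.card : ℝ) * Real.log U.card + J * U.card ≤ (a + J) * U.card := by
      have := mul_le_mul_of_nonneg_left hlu hUc0.le
      linarith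
    have := mul_le_mul_of_nonneg_left h3 hδ
    linarith
  have h3 : Real.log (1 / ρ) * g b ≤ Real.log (1 / ρ) * (2 / η * Y) * U.card := by
    have := mul_le_mul_of_nonneg_left hg1 hlρ
    linarith
  have h4 := mul_lt_mul_of_pos_right hnum hUc0
  linarith

end Pool.Agent.T2H12.KJ
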