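import Mathlib
import Pool.Agent.T2H12.KJ.SB3

/-!
# Sums when the exponents of many almost dependent primes have large entropy
-/

set_option autoImplicit false

namespace Pool.Agent.T2H12.KJ

open Finset
open scoped Classical
open Pool.Agent.Y359.PE Pool.Agent.T2H12.KF Pool.Agent.T2H12.KD Pool.Agent.T2H12.KG
open Pool.Agent.T2H12.KH Pool.Agent.T2H12.KI

/-- **Many large primes.** -/
theorem sumA3 {κ δ₁ : ℝ} (hκ : 0 < κ) (hδ₁ : 0 < δ₁) (M C : ℝ) :
    ∃ (K K' : ℕ) (δ a₀ : ℝ), 0 < δ ∧ 0 < a₀ ∧
    ∀ (A : Finset ℤ) (R Q : Finset ℕ), A.Nonempty → (0 : ℤ) ∉ A →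
      (∀ q ∈ Q, q.Prime) → DtE δ R Q A →
      a₀ ≤ Real.log A.card → (R.card : ℝ) ≤ C * Real.log A.card →
      h A (gq (Q.filter fun q => K ≤ q)) ≤ (1 - κ) * Real.log A.card →
      ∀ V : Finset ℤ, V.Nonempty → Real.log V.card ≤ M * Real.log A.card →
        ∃ m : ℕ, 1 ≤ m ∧ m ≤ K' ∧ (1 - δ₁) * (Real.log A.card + Real.log V.card) ≤
          Real.log ((A ×ˢ V).image fun s => (m : ℤ) * s.1 + s.2).card := by
  set M0 : ℝ := max M 0 with hM0
  set C0 : ℝ := max C 0 with hC0
  have hM00 : 0 ≤ M0 := le_max_right _ _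
  have hC00 : 0 ≤ C0 := le_max_right _ _
  set η : ℝ := min δ₁ 1 / 40 with hηd
  have hmin : 0 < min δ₁ 1 := lt_min hδ₁ one_pos
  have hη : 0 < η := by positivity
  have hη1 : η ≤ 1 / 40 := by
    have := min_le_right δ₁ 1
    rw [hηd]
    linarith
  have hηδ : 40 * η ≤ δ₁ := by
    have := min_le_left δ₁ 1
    rw [hηd]
    linarith
  set δ₄ : ℝ := η * κ / (64 * (C0 + 1)) with hδ₄d
  have hδ₄ : 0 < δ₄ := by positivity
  have hδ₄e : δ₄ * (C0 + 1) = η * κ / 64 := by
    rw [hδ₄d]
    field_simp
  obtain ⟨lam, al, hlam, hlam1, hal, hal1, hflat⟩ := flat' hδ₄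
  set u : ℝ := Real.log (1 / lam) with hud
  have hu : 0 ≤ u := Real.log_nonneg (by
    rw [le_div_iff₀ hlam]
    linarith)
  have hulam : Real.exp u * lam = 1 := by
    rw [hud, Real.exp_log (by positivity)]
    field_simp
  set c : ℝ := η / (C0 + 1) with hcd
  have hc : 0 < c := by positivity
  have hcC : c * (C0 + 1) = η := by
    rw [hcd]
    field_simp
  have hcη : c ≤ η := by
    rw [← hcC]
    nlinarith
  obtain ⟨d, hd, hd1, hrule⟩ := rule1Z (δ := η) (c := c) hη hc
  set ρ : ℝ := min (1 / 2) δ₄ with hρd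
  have hρ : 0 < ρ := by positivity
  have hρ2 : ρ ≤ 1 / 2 := min_le_left _ _
  have hρδ : ρ ≤ δ₄ := min_le_right _ _
  set lr : ℝ := Real.log (1 / ρ) with hlr
  have hlr0 : 0 ≤ lr := Real.log_nonneg (by
    rw [le_div_iff₀ hρ]
    linarith)
  have hl2 : 0 < Real.log 2 := Real.log_pos (by norm_num)
  set t : ℝ := max (max (1 / d) ((Real.log 2 + u) / (η * al * d)))
    (128 * lr * (1 + M0) / (η ^ 2 * κ * d)) with htd
  have ht1 : 1 / d ≤ t := (le_max_left _ _).trans (le_max_left _ _)
  have ht2 : (Real.log 2 + u) / (η * al * d) ≤ t := (le_max_right _ _).trans (le_max_left _ _)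
  have ht3 : 128 * lr * (1 + M0) / (η ^ 2 * κ * d) ≤ t := le_max_right _ _
  have ht : 0 < t := lt_of_lt_of_le (by positivity) ht1
  have hdt : 1 ≤ d * t := by
    rw [div_le_iff₀ hd] at ht1
    linarith
  have hpar : Real.log 2 + u ≤ η * (al * d * t) := by
    rw [div_le_iff₀ (by positivity)] at ht2
    linarith
  have hnum3 : lr * (2 / η * ((1 + M0) / (d * t))) ≤ η * κ / 64 := by
    rw [div_le_iff₀ (by positivity)] at ht3
    have h1 : lr * (2 / η * ((1 + M0) / (d * t))) = 2 * lr * (1 + M0) / (η * (d * t)) := by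
      field_simp
    rw [h1, div_le_iff₀ (by positivity)]
    nlinarith
  obtain ⟨K₀, hK₀, hruleK⟩ := hrule t ht.le
  obtain ⟨K₁, hK₁, hstep0⟩ := step03 (η := η) (c := c) hη (by linarith) hc
  obtain ⟨K, hK⟩ := exists_nat_ge (max K₀ (max K₁ 2))
  have hKa : K₀ ≤ K := (le_max_left _ _).trans hK
  have hKb : K₁ ≤ K := (le_max_left _ _).trans ((le_max_right _ _).trans hK)
  have hKc : (2 : ℝ) ≤ K := (le_max_right _ _).trans ((le_max_right _ _).trans hK)
  have hKp : (0 : ℝ) < K := by linarith
  obtain ⟨B₀, hB₀, hstep⟩ := hstep0 K hKb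
  set δd : ℝ := min η (κ / 16) with hδd
  have hδd0 : 0 < δd := by positivity
  have hδdη : δd ≤ η := min_le_left _ _
  have hδdκ : δd ≤ κ / 16 := min_le_right _ _
  refine ⟨K, 1 + K * (K - 1).factorial, δd, max (max 1 (B₀ / η)) (max (|Real.log (κ / 2)| / η)
    (16 * |Real.log (η * κ / 4)| / κ)), hδd0, by positivity, ?_⟩
  intro A R Q hA h0 hQp hD ha₀ hQC hH V hV hVM
  set a := Real.log A.card with had
  set v := Real.log V.card with hvd
  have hv0 : 0 ≤ v := log_card_nonneg V
  have ha1 : 1 ≤ a := (le_max_left _ _).trans ((le_max_left _ _).trans ha₀)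
  have haB : B₀ ≤ η * a := by
    have := (le_max_right _ _).trans ((le_max_left _ _).trans ha₀)
    rw [div_le_iff₀ hη] at this
    linarith
  have ha2 : |Real.log (κ / 2)| ≤ η * a := by
    have := (le_max_left _ _).trans ((le_max_right _ _).trans ha₀)
    rw [div_le_iff₀ hη] at this
    linarith
  have ha3 : |Real.log (η * κ / 4)| ≤ κ * a / 16 := by
    have := (le_max_right _ _).trans ((le_max_right _ _).trans ha₀)
    rw [div_le_iff₀ hκ] at this
    linarith
  have ha0 : 0 < a := by linarith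
  have hva : v ≤ M0 * a := hVM.trans (mul_le_mul_of_nonneg_right (le_max_left _ _) ha0.le)
  have hQa : (R.card : ℝ) ≤ C0 * a := hQC.trans (mul_le_mul_of_nonneg_right (le_max_left _ _) ha0.le)
  have hAc : (0 : ℝ) < A.card := by exact_mod_cast card_pos.2 hA
  set Ql := Q.filter fun q => K ≤ q with hQl
  have hE : ∀ O ⊆ A, ce O (gp R) (gp Q) ≤ δd * a := fun O hO => hD.2 O hO
  -- the large classes
  have s1 := large_classes A hA (gq Ql) ha0 hκ.le hH
  rw [← had] at s1
  set U := A.filter fun x => Real.exp (κ / 2 * a) ≤ fc A (gq Ql) x with hUd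
  have hUA : U ⊆ A := filter_subset _ _
  have hUc : (0 : ℝ) < U.card := lt_of_lt_of_le (by positivity) s1
  have hU : U.Nonempty := card_pos.1 (by exact_mod_cast hUc)
  set lu := Real.log U.card with hlud
  have hlua : lu ≤ a := Real.log_le_log hUc (by exact_mod_cast card_le_card hUA)
  have hlu0 : 0 ≤ lu := log_card_nonneg U
  have hlu1 : a + Real.log (κ / 2) ≤ lu := by
    have h1 := Real.log_le_log (by positivity) s1
    rw [Real.log_mul (by positivity) hAc.ne'] at h1
    linarith
  have h0U : (0 : ℤ) ∉ U := fun h => h0 (hUA h)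
  -- the parameters
  obtain ⟨N, hN⟩ := exists_sep (A ∪ V)
  set π : Par := ⟨t, d, u, al, η, c, N⟩ with hπ
  set Rl := R.filter fun q => K ≤ q with hRl
  have hRlR : Rl ⊆ R := filter_subset _ _
  set J := Rl.card with hJ
  have hJl : Rl.toList.length = J := Finset.length_toList Rl
  have hJa : (J : ℝ) ≤ C0 * a := by
    refine le_trans ?_ hQa
    exact_mod_cast card_le_card hRlR
  set P : ℕ → ℕ := fun j => Rl.toList.getD j 0 with hPd
  have hPget : ∀ j (hj : j < J), P j = Rl.toList[j]'(by rw [hJl]; exact hj) := by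
    intro j hj
    simp only [hPd]
    exact List.getD_eq_getElem _ _ _
  have hPRl : ∀ j < J, P j ∈ Rl := by
    intro j hj
    rw [hPget j hj]
    exact Finset.mem_toList.1 (List.getElem_mem _)
  have hPm : ∀ j < J, P j ∈ Ql := by
    intro j hj
    obtain ⟨h1, h2⟩ := mem_filter.1 (hPRl j hj)
    exact mem_filter.2 ⟨hD.1 h1, h2⟩
  have hPQ : ∀ q ∈ R, K ≤ q → ∃ j < J, P j = q := by
    intro q hq hqK
    obtain ⟨j, hj, hjq⟩ := List.mem_iff_getElem.1
      (Finset.mem_toList.2 (mem_filter.2 ⟨hq, hqK⟩ : q ∈ Rl))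
    exact ⟨j, by rw [hJl] at hj; exact hj, by
      rw [hPget j (by rw [hJl] at hj; exact hj)]
      exact hjq⟩
  have hJ1 : 1 ≤ J := by
    by_contra hcon
    have h1 := id_low hQp K R hD.1 A h0 J P hPQ
    have h2 : ce A (gq Ql) (fun x => fun j : Fin J => fa x (P j)) = 0 :=
      ce_const _ _ _ fun x _ y _ _ => by
        funext j
        exact absurd j.2 (by omega)
    rw [← hQl, h2] at h1
    have h3 := hE A (Subset.refl _)
    nlinarith
  have hone : ∀ j < J, ∀ S T : Finset ℤ, S.Nonempty → T.Nonempty → S ⊆ U → T ⊆ V →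
      ∃ F : ℤ × ℤ → St, OneP π (qK K) (P j) S T F := by
    intro j hj S T hS hT _ hTV
    obtain ⟨hpQ, hpK⟩ := mem_filter.1 (hPm j hj)
    have hp := hQp _ hpQ
    refine one π (qK K) (P j) hd hd1 ht.le hu hal hη.le hc.le ?_ hpar S T hS hT ?_
    · intro l S' T' hS' hT' hl
      exact hruleK K (P j) hKa hp hpK l S' T' hS' hT' hl
    · intro x hx y hy hxy
      exact hN _ hp.two_le x (mem_union_right _ (hTV hx)) y (mem_union_right _ (hTV hy)) hxy
  obtain ⟨st, hst0, hR, hO, hcost, hcount⟩ := multi π (qK K) P J U V hU hV (gp Q) hη.le hc.le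
    (by positivity) hone
  set X := U ×ˢ V with hXd
  have hVc : (0 : ℝ) < V.card := by exact_mod_cast card_pos.2 hV
  have hXc : (X.card : ℝ) = U.card * V.card := by
    rw [hXd, card_product]
    push_cast
    rfl
  have hX0 : (0 : ℝ) < X.card := by
    rw [hXc]
    positivity
  have hlX : Real.log X.card = lu + v := by
    rw [hXc, Real.log_mul hUc.ne' hVc.ne']
  have hhX : h X (st J) ≤ lu + v := by
    rw [← hlX]
    exact h_le_log_card X (st J)
  set Y : ℝ := (1 + M0) / (d * t) * a with hY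
  have hY0 : 0 < Y := by positivity
  have hcnt : ∑ j ∈ range J, ∑ s ∈ X, ((st (j + 1) s).2.2 : ℝ) ≤ X.card * Y := by
    have h1 : d * t * ∑ j ∈ range J, ∑ s ∈ X, ((st (j + 1) s).2.2 : ℝ) ≤
        X.card * ((1 + M0) * a) := by
      refine hcount.trans (mul_le_mul_of_nonneg_left ?_ hX0.le)
      linarith
    have h2 : (X.card : ℝ) * Y = X.card * ((1 + M0) * a) / (d * t) := by
      rw [hY]
      ring
    rw [h2, le_div_iff₀ (by positivity)]
    linarith
  have hcnt2 : ∑ j ∈ range J, ∑ s ∈ X, ((st (j + 1) s).2.2 : ℝ) ≤ X.card * (a + v) := by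
    have h1 : d * t * ∑ j ∈ range J, ∑ s ∈ X, ((st (j + 1) s).2.2 : ℝ) ≤
        X.card * (a + v) := hcount.trans (mul_le_mul_of_nonneg_left (by linarith) hX0.le)
    have h2 : 0 ≤ ∑ j ∈ range J, ∑ s ∈ X, ((st (j + 1) s).2.2 : ℝ) :=
      sum_nonneg fun _ _ => sum_nonneg fun _ _ => Nat.cast_nonneg _
    nlinarith
  -- the exceptional pairs
  have hOs := O_small3 (E := δd * a) (η := η) (κ := κ) (δ := δ₄) (lam := lam) (a := a) (Y := Y) π (qK K) hflat
    hal1 hu hulam hρ hρ2 Q R K hQp hD.1 P J hPm A U V hPQ hE hUA h0 hU hV st hst0 hR hO hη hκ hδ₄.le had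
    s1 (fun x hx => (mem_filter.1 hx).2) hY0 hcnt (by
      have := neg_abs_le (Real.log (η * κ / 4))
      have h9 : δd * a ≤ κ / 16 * a := mul_le_mul_of_nonneg_right hδdκ ha0.le
      nlinarith) (by
      have h1 : δ₄ * (a + J) ≤ η * κ / 64 * a := by
        have h2 : (a + J : ℝ) ≤ (C0 + 1) * a := by linarith [hJa]
        have h3 := mul_le_mul_of_nonneg_left h2 hδ₄.le
        rw [← mul_assoc, hδ₄e] at h3
        exact h3
      have h2 : 2 * ρ * J ≤ 2 * (η * κ / 64 * a) := by
        have h3 : ρ * (J : ℝ) ≤ δ₄ * (C0 * a) := mul_le_mul hρδ hJa (Nat.cast_nonneg _) hδ₄.le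
        have h4 : δ₄ * (C0 * a) ≤ η * κ / 64 * a := by
          rw [← hδ₄e]
          have : 0 ≤ δ₄ * a := by positivity
          linarith
        linarith
      have h3 : lr * (2 / η * Y) ≤ η * κ / 64 * a := by
        have h4 : lr * (2 / η * Y) = lr * (2 / η * ((1 + M0) / (d * t))) * a := by
          rw [hY]
          ring
        rw [h4]
        exact mul_le_mul_of_nonneg_right hnum3 ha0.le
      have h4 := neg_abs_le (Real.log (η * κ / 4))
      have h5 : κ / 2 * a + Real.log (η * κ / 4) - δd * a ≥ κ * a / 4 := by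
        have : 0 < κ * a := by positivity
        have h9 : δd * a ≤ κ / 16 * a := mul_le_mul_of_nonneg_right hδdκ ha0.le
        linarith
      have h6 : η / 2 * (κ * a / 4) ≤ η / 2 * (κ / 2 * a + Real.log (η * κ / 4) - δd * a) :=
        mul_le_mul_of_nonneg_left h5 (by positivity)
      have h7 : 0 < η * κ * a := by positivity
      change δ₄ * (a + J) + 2 * ρ * J + lr * (2 / η * Y) < _
      linarith)
  -- the multiplier
  have hstep' := hstep R Q U V hQp hD.1 h0U hU hV
  have hEU := hE U hUA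
  rw [card_qK] at hcost
  obtain ⟨m, hm, hmc⟩ : ∃ m ∈ qK K, (X.card : ℝ) * ce X (fun s => m * s.1 + s.2) (st J) ≤
      X.card * (11 * η * (a + v)) := by
    refine exists_le_of_sum_le (s := qK K) ?_ ?_
    · rw [← card_pos, card_qK]
      exact_mod_cast hKp
    · rw [sum_const, card_qK, nsmul_eq_mul]
      refine hcost.trans ?_
      rw [← mul_sum]
      have h1 : (X.card : ℝ) * ∑ m ∈ qK K, ce X (fun s => m * s.1 + s.2) (fun s => gp Q s.1) ≤
          X.card * (K * (8 * η * (a + v))) := by
        refine mul_le_mul_of_nonneg_left (hstep'.trans ?_) hX0.le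
        refine mul_le_mul_of_nonneg_left ?_ hKp.le
        have h2 : c * (R.card : ℝ) ≤ η * a := by
          have h3 := mul_le_mul_of_nonneg_left hQa hc.le
          have h4 : c * (C0 * a) ≤ η * a := by
            rw [← hcC]
            have : 0 ≤ c * a := by positivity
            linarith
          linarith
        have h3 : 5 * η * (lu + v) ≤ 5 * η * (a + v) :=
          mul_le_mul_of_nonneg_left (by linarith) (by positivity)
        have h4 : 0 ≤ η * v := by positivity
        have h9 : δd * a ≤ η * a := mul_le_mul_of_nonneg_right hδdη ha0.le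
        change 5 * η * (lu + v) + c * (R.card : ℝ) + B₀ + ce U (gp R) (gp Q) ≤ _
        linarith
      have h2 : ∑ j ∈ range J, ∑ s ∈ X, (1 + ((st (j + 1) s).2.2 : ℝ)) ≤
          X.card * (J + (a + v)) := by
        have h3 : ∑ j ∈ range J, ∑ s ∈ X, (1 + ((st (j + 1) s).2.2 : ℝ)) =
            J * X.card + ∑ j ∈ range J, ∑ s ∈ X, ((st (j + 1) s).2.2 : ℝ) := by
          simp only [sum_add_distrib, sum_const, card_range, nsmul_eq_mul, mul_one]
        rw [h3]
        linarith
      have h3 : π.c * ∑ j ∈ range J, ∑ s ∈ X, (1 + ((st (j + 1) s).2.2 : ℝ)) ≤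
          X.card * (2 * η * (a + v)) := by
        have h4 := mul_le_mul_of_nonneg_left h2 hc.le
        have h5 : c * (J : ℝ) ≤ η * a := by
          have h3 := mul_le_mul_of_nonneg_left hJa hc.le
          have h4 : c * (C0 * a) ≤ η * a := by
            rw [← hcC]
            have : 0 ≤ c * a := by positivity
            linarith
          linarith
        have h6 : c * (a + v) ≤ η * (a + v) := mul_le_mul_of_nonneg_right hcη (by linarith)
        have h7 : c * ((J : ℝ) + (a + v)) ≤ 2 * η * (a + v) := by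
          have : 0 ≤ η * v := by positivity
          linarith
        have h8 := mul_le_mul_of_nonneg_left h7 hX0.le
        change c * ∑ j ∈ range J, ∑ s ∈ X, (1 + ((st (j + 1) s).2.2 : ℝ)) ≤ _
        linarith
      have h4 : π.e * ((X.card : ℝ) * h X (st J)) ≤ X.card * (η * (a + v)) := by
        have h5 : h X (st J) ≤ a + v := by linarith
        have h6 := mul_le_mul_of_nonneg_left h5 hX0.le
        have h7 := mul_le_mul_of_nonneg_left h6 hη.le
        change η * ((X.card : ℝ) * h X (st J)) ≤ _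
        linarith
      have h5 := mul_le_mul_of_nonneg_left (add_le_add h4 h3) hKp.le
      linarith
  have hmc' : ce X (fun s => m * s.1 + s.2) (st J) ≤ 11 * η * (a + v) :=
    le_of_mul_le_mul_left hmc hX0
  -- the entropy of the sum
  have hsum := h_sum_ge m U V hU hV (st J) (hR J le_rfl)
  have hlogs : ∑ s ∈ X, Real.log (st J s).1.card ≤ η * X.card * a := by
    have h1 : ∀ s ∈ X, Real.log (st J s).1.card ≤
        if Real.exp π.t < ((st J s).2.1.card : ℝ) then a else 0 := by
      intro s hs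
      obtain ⟨m1, m2, m3⟩ := (hR J le_rfl).mem s hs
      obtain ⟨m4, m5⟩ := mem_product.1 m1
      split_ifs with h2
      · exact (log_card_mono ⟨_, m4⟩ (m2.trans hUA))
      · rw [not_lt] at h2
        obtain ⟨j, hj⟩ : ∃ j, j + 1 = J := ⟨J - 1, by omega⟩
        have h3 := (hO j (by omega) s hs).res s (((hR j (by omega)).mem s hs).1)
        rw [hj] at h3
        have h4 : π.lv (P j) (st J s).2.1 = N := lev_small hd.le N (P j) h2
        have h5 : (st J s).1.card ≤ 1 := by
          rw [card_le_one]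
          intro x hx y hy
          have h6 := h3 x hx y hy
          rw [h4, rp_eq_iff] at h6
          exact hN _ (hQp _ (mem_filter.1 (hPm j (by omega))).1).two_le x (mem_union_left _ (hUA (m2 hx))) y
            (mem_union_left _ (hUA (m2 hy))) h6
        have h6 : (st J s).1.card = 1 := by
          have := card_pos.2 ⟨_, m4⟩
          omega
        rw [h6, Nat.cast_one, Real.log_one]
    refine (sum_le_sum h1).trans ?_
    rw [← sum_filter, sum_const, nsmul_eq_mul]
    exact mul_le_mul_of_nonneg_right hOs ha0.le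
  have hhz : (1 - δ₁) * (a + v) ≤ h X (fun s => m * s.1 + s.2) := by
    have h1 : (X.card : ℝ) * (lu + v) - X.card * (11 * η * (a + v)) - η * X.card * a ≤
        X.card * h X (fun s => m * s.1 + s.2) := by linarith
    have h2 : (X.card : ℝ) * (lu + v - 11 * η * (a + v) - η * a) ≤
        X.card * h X (fun s => m * s.1 + s.2) := by linarith
    have h3 := le_of_mul_le_mul_left h2 hX0
    have h4 := neg_abs_le (Real.log (κ / 2))
    have h5 : 40 * η * (a + v) ≤ δ₁ * (a + v) := mul_le_mul_of_nonneg_right hηδ (by linarith)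
    have h6 : 0 ≤ η * v := by positivity
    have h7 : 0 ≤ η * a := by positivity
    linarith
  obtain ⟨j, hj, rfl⟩ := mem_qK.1 hm
  refine ⟨1 + j * (K - 1).factorial, by omega, ?_, ?_⟩
  · have := Nat.mul_le_mul_right (K - 1).factorial hj.le
    omega
  · refine hhz.trans ((h_le_log' (hU.product hV) _).trans ?_)
    push_cast
    refine Real.log_le_log ?_ ?_
    · have h9 : ((U ×ˢ V).image fun s : ℤ × ℤ =>
        (1 + (j : ℤ) * ((K - 1).factorial : ℤ)) * s.1 + s.2).Nonempty := (hU.product hV).image _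
      exact_mod_cast card_pos.2 h9
    · exact_mod_cast card_le_card (image_subset_image (product_subset_product hUA (Subset.refl _)))

end Pool.Agent.T2H12.KJ
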