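import Mathlib
import Pool.Agent.T2H12.KJ.SumA3
import Pool.Agent.T2H12.KJ.SumB3

/-!
# The dichotomy when the popular part is determined by `C log |A|` primes (package FIN3)
-/

set_option autoImplicit false

namespace Pool.Agent.T2H12.KJ

open Finset
open scoped Classical
open Pool.Agent.Y359.PE Pool.Agent.T2H12.KF Pool.Agent.T2H12.KD Pool.Agent.T2H12.KG
open Pool.Agent.T2H12.KH Pool.Agent.T2H12.KI

lemma dtE_mono {δ δ' : ℝ} (hδ : δ ≤ δ') {P Q : Finset ℕ} {A : Finset ℤ} (h : DtE δ P Q A) :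
    DtE δ' P Q A :=
  ⟨h.1, fun U hU => (h.2 U hU).trans (mul_le_mul_of_nonneg_right hδ (log_card_nonneg A))⟩

/-- **All primes.** -/
theorem sumC3 {κ δ₁ : ℝ} (hκ : 0 < κ) (hδ₁ : 0 < δ₁) (M C : ℝ) :
    ∃ (K' : ℕ) (δ a₀ : ℝ), 0 < δ ∧ 0 < a₀ ∧
    ∀ (A : Finset ℤ) (P Q : Finset ℕ), A.Nonempty → (0 : ℤ) ∉ A → (∀ q ∈ Q, q.Prime) →
      DtE δ P Q A → a₀ ≤ Real.log A.card → (P.card : ℝ) ≤ C * Real.log A.card →
      h A (gq Q) ≤ (1 - κ) * Real.log A.card →
      ∀ V : Finset ℤ, V.Nonempty → Real.log V.card ≤ M * Real.log A.card →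
        ∃ m : ℕ, 1 ≤ m ∧ m ≤ K' ∧ (1 - δ₁) * (Real.log A.card + Real.log V.card) ≤
          Real.log ((A ×ˢ V).image fun s => (m : ℤ) * s.1 + s.2).card := by
  obtain ⟨K, K1, δa, a1, hδa, ha1, H1⟩ := sumA3 (half_pos hκ) hδ₁ M C
  obtain ⟨K2, δb, a2, hδb, ha2, H2⟩ := sumB3 (half_pos hκ) hδ₁ M C
  refine ⟨max K1 K2, min δa δb, max (max a1 a2) (K / δb), lt_min hδa hδb,
    lt_max_of_lt_left (lt_max_of_lt_left ha1), ?_⟩
  intro A P Q hA h0 hQ hdt ha hPc hent V hV hVc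
  have b1 : a1 ≤ Real.log A.card := ((le_max_left _ _).trans (le_max_left _ _)).trans ha
  have b2 : a2 ≤ Real.log A.card := ((le_max_right _ _).trans (le_max_left _ _)).trans ha
  have b3 : (K : ℝ) / δb ≤ Real.log A.card := (le_max_right _ _).trans ha
  have b4 : (K : ℝ) ≤ δb * Real.log A.card := by
    rw [div_le_iff₀ hδb] at b3
    linarith
  have hL0 : 0 ≤ Real.log A.card := log_card_nonneg A
  have hda : DtE δa P Q A := dtE_mono (min_le_left _ _) hdt
  have hdb : DtE δb P Q A := dtE_mono (min_le_right _ _) hdt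
  set L := Real.log A.card with hL
  have e1 := sumC_split h0 hQ K
  have e2 : ce A (gq Q) (gp (Q.filter (· < K))) =
      h A (gq (Q.filter (K ≤ ·))) - h A (gq Q) := by
    unfold ce
    rw [e1]
  by_cases hc : κ / 2 * L ≤ ce A (gq Q) (gp (Q.filter (· < K)))
  · have c1 : (Q.filter (· < K)).card ≤ K := by
      have : Q.filter (· < K) ⊆ range K := fun q hq => mem_range.2 (mem_filter.1 hq).2
      simpa using card_le_card this
    have c2 : ((Q.filter (· < K)).card : ℝ) ≤ δb * L := le_trans (by exact_mod_cast c1) b4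
    obtain ⟨m, hm1, hm2, hm3⟩ := H2 A (Q.filter (· < K)) P Q hA h0 hQ (filter_subset _ _) hdb
      b2 c2 hPc hc V hV hVc
    exact ⟨m, hm1, hm2.trans (le_max_right _ _), hm3⟩
  · have c3 : h A (gq (Q.filter (K ≤ ·))) ≤ (1 - κ / 2) * L := by
      push Not at hc
      rw [e2] at hc
      nlinarith
    obtain ⟨m, hm1, hm2, hm3⟩ := H1 A P Q hA h0 hQ hda b1 hPc c3 V hV hVc
    exact ⟨m, hm1, hm2.trans (le_max_left _ _), hm3⟩

/-- **The sum side.** -/
theorem sum_fin3 (k : ℕ) {κ ε : ℝ} (hκ : 0 < κ) (hε : 0 < ε) (hε1 : ε ≤ 1) (C : ℝ) :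
    ∃ (K : ℕ) (δ c : ℝ), 0 < δ ∧ 0 < c ∧
    ∀ (A : Finset ℤ) (P Q : Finset ℕ), A.Nonempty → (0 : ℤ) ∉ A → (∀ q ∈ Q, q.Prime) →
      DtE δ P Q A → (P.card : ℝ) ≤ C * Real.log A.card → h A (gq Q) ≤ (1 - κ) * Real.log A.card →
      ∀ B : Finset ℤ, B.Nonempty → ∃ l : ℕ → ℕ, (∀ i, 1 ≤ l i ∧ l i ≤ K) ∧
        c * ((A.card : ℝ) ^ k * B.card) ^ (1 - ε) ≤ (dilateSum k l A B).card := by
  have hk0 : (0 : ℝ) ≤ k := Nat.cast_nonneg k
  set δ₁ : ℝ := ε / (4 * (k + 1)) with hδ₁d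
  have hδ₁ : 0 < δ₁ := by positivity
  have hδk : δ₁ * (k + 1) = ε / 4 := by
    rw [hδ₁d]
    field_simp
  have hδ₁1 : δ₁ ≤ 1 := by nlinarith
  set M : ℝ := k + k / ε + 1 with hM
  obtain ⟨K', δ, a₀, hδ, ha₀, hside⟩ := sumC3 hκ hδ₁ M C
  refine ⟨max K' 1, δ, Real.exp (-(k * a₀)), hδ, Real.exp_pos _, ?_⟩
  intro A P Q hA h0 hQ hdt hQc hH B hB
  have hAc : (1 : ℝ) ≤ A.card := by exact_mod_cast card_pos.2 hA
  have hA0 : (0 : ℝ) < A.card := by linarith
  set a := Real.log A.card with had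
  have ha : 0 ≤ a := Real.log_nonneg hAc
  have hBc : (1 : ℝ) ≤ B.card := by exact_mod_cast card_pos.2 hB
  have hB0 : (0 : ℝ) < B.card := by linarith
  set b := Real.log B.card with hbd
  have hb : 0 ≤ b := Real.log_nonneg hBc
  have hX : (0 : ℝ) < (A.card : ℝ) ^ k * B.card := by positivity
  have hlX : Real.log ((A.card : ℝ) ^ k * B.card) = k * a + b := by
    rw [Real.log_mul (by positivity) hB0.ne', Real.log_pow]
  have hXp : (0 : ℝ) < ((A.card : ℝ) ^ k * B.card) ^ (1 - ε) := Real.rpow_pos_of_pos hX _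
  have htB : ∀ l : ℕ → ℕ, (B.card : ℝ) ≤ (dilateSum k l A B).card :=
    fun l => by exact_mod_cast dilateSum_card_ge hA k l
  have htp : ∀ l : ℕ → ℕ, (0 : ℝ) < (dilateSum k l A B).card := fun l => by
    linarith [htB l]
  have hb1 : ∀ l : ℕ → ℕ, b ≤ Real.log (dilateSum k l A B).card :=
    fun l => Real.log_le_log hB0 (htB l)
  have hlog : ∀ l : ℕ → ℕ, -(k * a₀) + (1 - ε) * (k * a + b) ≤
      Real.log (dilateSum k l A B).card →
      Real.exp (-(k * a₀)) * ((A.card : ℝ) ^ k * B.card) ^ (1 - ε) ≤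
        (dilateSum k l A B).card := by
    intro l hl
    rw [← Real.log_le_log_iff (mul_pos (Real.exp_pos _) hXp) (htp l),
      Real.log_mul (Real.exp_pos _).ne' hXp.ne', Real.log_exp, Real.log_rpow hX, hlX]
    exact hl
  have hka0 : 0 ≤ k * a₀ := by positivity
  rcases lt_or_ge a a₀ with haa | haa
  · -- small sets
    refine ⟨fun _ => 1, fun _ => ⟨le_rfl, le_max_right _ _⟩, hlog _ ?_⟩
    have h1 : k * a ≤ k * a₀ := mul_le_mul_of_nonneg_left haa.le hk0
    have h2 : 0 ≤ ε * (k * a + b) := by positivity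
    linarith [hb1 fun _ => 1]
  rcases lt_or_ge (k / ε * a) b with hbb | hbb
  · -- large `B`
    refine ⟨fun _ => 1, fun _ => ⟨le_rfl, le_max_right _ _⟩, hlog _ ?_⟩
    have h1 : k * a ≤ ε * b := by
      have h2 := mul_le_mul_of_nonneg_left hbb.le hε.le
      have h3 : ε * (k / ε * a) = k * a := by field_simp
      linarith
    have h2 : (1 - ε) * (k * a + b) ≤ (1 - ε) * (ε * b + b) :=
      mul_le_mul_of_nonneg_left (by linarith) (by linarith)
    have h3 : 0 ≤ ε ^ 2 * b := by positivity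
    have h4 : (1 - ε) * (ε * b + b) = b - ε ^ 2 * b := by ring
    linarith [hb1 fun _ => 1]
  · -- the main case
    have hstep : ∀ V : Finset ℤ, V.Nonempty ∧ Real.log V.card ≤ M * a →
        ∃ m : ℕ, 1 ≤ m ∧ m ≤ K' ∧ (1 - δ₁) * (a + Real.log V.card) ≤
          Real.log ((A ×ˢ V).image fun s => (m : ℤ) * s.1 + s.2).card :=
      fun V hV => hside A P Q hA h0 hQ hdt haa hQc hH V hV.1 hV.2
    have hstep2 : ∀ V : Finset ℤ, ∃ m : ℕ, 1 ≤ m ∧ m ≤ max K' 1 ∧
        (V.Nonempty ∧ Real.log V.card ≤ M * a → (1 - δ₁) * (a + Real.log V.card) ≤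
          Real.log ((A ×ˢ V).image fun s => (m : ℤ) * s.1 + s.2).card) := by
      intro V
      by_cases hV : V.Nonempty ∧ Real.log V.card ≤ M * a
      · obtain ⟨m, hm1, hm2, hm3⟩ := hstep V hV
        exact ⟨m, hm1, hm2.trans (le_max_left _ _), fun _ => hm3⟩
      · exact ⟨1, le_rfl, le_max_right _ _, fun h => absurd h hV⟩
    choose g hg1 hg2 hg3 using hstep2
    refine ⟨fun i => g (vf g A B i), fun i => ⟨hg1 _, hg2 _⟩, hlog _ ?_⟩
    have h1 := iterate_vf (g := g) (A := A) (B := B) (η := δ₁) (k := k) hδ₁.le hδ₁1 (by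
      intro j hj
      refine hg3 _ ⟨vf_nonempty g hA hB j, ?_⟩
      have hVc : (0 : ℝ) < (vf g A B j).card := by
        exact_mod_cast card_pos.2 (vf_nonempty g hA hB j)
      have h2 : ((vf g A B j).card : ℝ) ≤ (A.card : ℝ) ^ j * B.card := by
        exact_mod_cast vf_card_le g A B j
      have h3 := Real.log_le_log hVc h2
      rw [Real.log_mul (by positivity) (by positivity), Real.log_pow] at h3
      have hjm : (j : ℝ) ≤ k := by exact_mod_cast hj.le
      have h4 : (j : ℝ) * a ≤ k * a := mul_le_mul_of_nonneg_right hjm ha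
      have h5 : M * a = k * a + k / ε * a + a := by
        rw [hM]
        ring
      rw [h5]
      linarith)
    have h2 : Real.log (vf g A B k).card ≤
        Real.log (dilateSum k (fun i => g (vf g A B i)) A B).card :=
      log_card_mono (vf_nonempty g hA hB k) (vf_sub g A B k)
    have h3 := one_add_mul_le_pow (a := -δ₁) (by linarith) k
    have h4 : (1 : ℝ) + -δ₁ = 1 - δ₁ := by ring
    rw [h4] at h3
    have h5 : 1 - ε / 4 ≤ (1 - δ₁) ^ k := by nlinarith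
    have h7 : (1 - ε / 4) * (k * a + b) ≤ (1 - δ₁) ^ k * (k * a + b) :=
      mul_le_mul_of_nonneg_right h5 (by positivity)
    have h8 : (1 - ε) * (k * a + b) ≤ (1 - ε / 4) * (k * a + b) :=
      mul_le_mul_of_nonneg_right (by linarith) (by positivity)
    linarith

/-- **The dichotomy.** -/
theorem fin_main3 (k : ℕ) (hk : 1 ≤ k) {ε : ℝ} (hε : 0 < ε) (hε1 : ε ≤ 1) :
    ∃ L : ℝ, 1 ≤ L ∧ ∀ C : ℝ, ∃ (K : ℕ) (δ c : ℝ), 0 < δ ∧ 0 < c ∧
    ∀ (A : Finset ℤ) (P Q : Finset ℕ), A.Nonempty → (0 : ℤ) ∉ A → (∀ q ∈ Q, q.Prime) →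
      P ⊆ Q → (P.card : ℝ) ≤ C * Real.log A.card →
      (∀ x ∈ A, (nq P Q A x : ℝ) ≤ (A.card : ℝ) ^ δ) →
      (∀ p : ℕ, p.Prime → p ∉ Q → ∃ e : ℕ,
        L * ((A.filter fun a => a.natAbs.factorization p ≠ e).card : ℝ) ≤ A.card) →
      c * (A.card : ℝ) ^ ((k : ℝ) - ε) ≤ (prodSet k A).card ∨
      ∀ B : Finset ℤ, B.Nonempty → ∃ l : ℕ → ℕ, (∀ i, 1 ≤ l i ∧ l i ≤ K) ∧
        c * ((A.card : ℝ) ^ k * B.card) ^ (1 - ε) ≤ (dilateSum k l A B).card := by
  have hkr : (1 : ℝ) ≤ k := by exact_mod_cast hk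
  have hl2 : 0 < Real.log 2 := Real.log_pos (by norm_num)
  set κ : ℝ := ε / (4 * k) with hκd
  have hκ : 0 < κ := by positivity
  have hκk : κ * k = ε / 4 := by
    rw [hκd]
    field_simp
  have hκ1 : κ ≤ 1 / 4 := by nlinarith
  set l₀ : ℝ := max 6 (k * (4 + k) / κ) with hl₀
  have hl₀6 : 6 ≤ l₀ := le_max_left _ _
  refine ⟨Real.exp l₀, Real.one_le_exp (by linarith), fun C => ?_⟩
  obtain ⟨K, δ, c₁, hδ, hc₁, hfib⟩ := sum_fin3 k hκ hε hε1 C
  refine ⟨K, δ, min c₁ (Real.exp (-(k * Real.log 2))), hδ, by positivity, ?_⟩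
  intro A P Q hA h0 hQ hPQ hQc hnq hpop
  have hdt := dtE_of_nq hQ hPQ hA hnq
  have hAc : (1 : ℝ) ≤ A.card := by exact_mod_cast card_pos.2 hA
  have hA0 : (0 : ℝ) < A.card := by linarith
  set a := Real.log A.card with had
  have ha : 0 ≤ a := Real.log_nonneg hAc
  have hkεa : (k : ℝ) * κ * a = ε / 4 * a := by rw [mul_comm (k : ℝ) κ, hκk]
  by_cases hH : h A (gq Q) ≤ (1 - κ) * a
  · right
    intro B hB
    obtain ⟨l, hl, hl2⟩ := hfib A P Q hA h0 hQ hdt hQc hH B hB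
    refine ⟨l, hl, le_trans ?_ hl2⟩
    exact mul_le_mul_of_nonneg_right (min_le_left _ _) (Real.rpow_nonneg (by positivity) _)
  · left
    rw [not_le] at hH
    choose! e he using hpop
    have hT : ∀ p ∈ pr A \ Q, Real.exp l₀ * ((A.filter fun a => fa a p ≠ e p).card : ℝ) ≤
        A.card := by
      intro p hp
      obtain ⟨hp1, hp2⟩ := mem_sdiff.1 hp
      exact he p (prime_of_mem_pr hp1) hp2
    have h1 := prod_of_entropy A hA h0 (pr A \ Q) e k hk (L := Real.exp l₀) (γ := κ)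
      (by rw [Real.one_lt_exp_iff]; linarith) (by rw [Real.log_exp]; linarith) (by linarith)
      (by
        rw [Real.log_exp, div_le_iff₀ (by linarith)]
        have h2 : (k : ℝ) * (4 + k) / κ ≤ l₀ := le_max_right _ _
        rw [div_le_iff₀ hκ] at h2
        linarith) hT
    rw [prodSet_eq]
    have h2 := h_gq_le A hA h0 Q hQ e
    have hpp : (0 : ℝ) < (pk k A).card := by
      have := pk_nonempty (k := k) hA
      exact_mod_cast card_pos.2 this
    have hXp : (0 : ℝ) < (A.card : ℝ) ^ ((k : ℝ) - ε) := Real.rpow_pos_of_pos hA0 _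
    have hc0 : (0 : ℝ) < min c₁ (Real.exp (-(k * Real.log 2))) := by positivity
    rw [← Real.log_le_log_iff (mul_pos hc0 hXp) hpp, Real.log_mul hc0.ne' hXp.ne',
      Real.log_rpow hA0]
    have hlc : Real.log (min c₁ (Real.exp (-(k * Real.log 2)))) ≤ -(k * Real.log 2) := by
      have h1 := Real.log_le_log hc0 (min_le_right c₁ (Real.exp (-(k * Real.log 2))))
      rwa [Real.log_exp] at h1
    have h3 : (1 - κ) * k * ((1 - κ) * a - Real.log 2) ≤
        (1 - κ) * k * h A (mk (pr A \ Q) (X e)) := by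
      refine mul_le_mul_of_nonneg_left (by linarith) ?_
      have : 0 ≤ 1 - κ := by linarith
      positivity
    have h4 : (k - ε) * a - k * Real.log 2 ≤ (1 - κ) * k * ((1 - κ) * a - Real.log 2) := by
      have h5 : (1 - κ) * k * ((1 - κ) * a - Real.log 2) = k * a - 2 * (k * κ * a) +
          κ * (k * κ * a) - k * Real.log 2 + k * κ * Real.log 2 := by ring
      rw [h5, hkεa]
      have h6 : 0 ≤ κ * (ε / 4 * a) := by positivity
      have h7 : 0 ≤ (k : ℝ) * κ * Real.log 2 := by positivity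
      have h8 : 0 ≤ ε / 2 * a := by positivity
      linarith
    linarith

end Pool.Agent.T2H12.KJ
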